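import Mathlib
import Pool.Agent.Lib.MP_945b72_nt.Final

open Finset

/-- Q1 holds: for every prime `p` with `(p/7) = 1`, i.e. `p ≡ 1, 2, 4 (mod 7)`, and all integers
`x, y` with `x² + 7 y² = p`, the integer `∑_{m<p} (-1)^m a(m) - 4x² + 2p` is divisible by `p²`,
where `a(m) = ∑_{j≤m} (-16)^j C(m,j)² C(m-j,j)²`. -/
theorem Pool.Agent.Results.MP_945b72_nt.AlternatingSum.result :
    ∀ p : ℕ, p.Prime → (p % 7 = 1 ∨ p % 7 = 2 ∨ p % 7 = 4) →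
      ∀ x y : ℤ, x ^ 2 + 7 * y ^ 2 = p →
        (p : ℤ) ^ 2 ∣ (∑ m ∈ range p, (-1) ^ m * ∑ j ∈ range (m + 1),
          (-16) ^ j * (m.choose j : ℤ) ^ 2 * ((m - j).choose j : ℤ) ^ 2) - 4 * x ^ 2 + 2 * p := by
  intro p hp h7 x y hxy
  exact Pool.Agent.Lib.MP_945b72_nt.conjecture p hp h7 x y hxy
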